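import Mathlib

open Finset

namespace Pool.Agent.Results.MP_5e3dfa_co.OrderOfMagnitude

/-- `F` is a maximal intersecting family of `n/2`-element subsets of the `n`-element set
`Fin n`. -/
def IsMaxIntersecting {n : ℕ} (F : Finset (Finset (Fin n))) : Prop :=
  (∀ A ∈ F, A.card = n / 2) ∧ (∀ A ∈ F, ∀ B ∈ F, (A ∩ B).Nonempty) ∧
    ∀ S : Finset (Fin n), S.card = n / 2 → (∀ A ∈ F, (A ∩ S).Nonempty) → S ∈ F

/-- `M` is a system of pairwise disjoint `r`-element subsets of `Fin n`. -/
def IsSystem {n : ℕ} (r : ℕ) (M : Finset (Finset (Fin n))) : Prop :=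
  (∀ m ∈ M, m.card = r) ∧ ∀ m ∈ M, ∀ m' ∈ M, m ≠ m' → Disjoint m m'

/-- `M` is shattered by `F`: for every choice `g m ∈ m` of one element from each member of `M`
there is a member of `F` whose intersection with the union of `M` is the set of chosen
elements. -/
def Shattered {n : ℕ} (F M : Finset (Finset (Fin n))) : Prop :=
  ∀ g : Finset (Fin n) → Fin n, (∀ m ∈ M, g m ∈ m) →
    ∃ A ∈ F, A ∩ M.biUnion id = M.image g

/-- `k_r(n)`: the largest `k` such that every maximal intersecting family of `n/2`-element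
subsets of `Fin n` shatters some system of `k` pairwise disjoint `r`-element sets. -/
noncomputable def kr (r n : ℕ) : ℕ :=
  sSup {k : ℕ | ∀ F : Finset (Finset (Fin n)), IsMaxIntersecting F →
    ∃ M : Finset (Finset (Fin n)), IsSystem r M ∧ M.card = k ∧ Shattered F M}

lemma card_biUnion_system {n r : ℕ} {M : Finset (Finset (Fin n))} (h : IsSystem r M) :
    (M.biUnion id).card = r * M.card := by
  have h1 : (M.biUnion id).card = ∑ m ∈ M, (id m).card :=
    card_biUnion (fun x hx y hy hxy => h.2 x hx y hy hxy)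
  have h2 : ∑ m ∈ M, (id m).card = ∑ _m ∈ M, r := sum_congr rfl (fun m hm => h.1 m hm)
  rw [h1, h2, sum_const, smul_eq_mul, mul_comm]

lemma image_subset {n : ℕ} {M : Finset (Finset (Fin n))} {g : Finset (Fin n) → Fin n}
    (hg : ∀ m ∈ M, g m ∈ m) : M.image g ⊆ M.biUnion id := by
  intro x hx
  obtain ⟨m, hm, rfl⟩ := mem_image.mp hx
  exact mem_biUnion.mpr ⟨m, hm, hg m hm⟩

lemma card_choice {n r : ℕ} {M : Finset (Finset (Fin n))} (h : IsSystem r M)
    {g : Finset (Fin n) → Fin n} (hg : ∀ m ∈ M, g m ∈ m) : (M.image g).card = M.card := by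
  apply card_image_of_injOn
  intro m hm m' hm' hmm'
  by_contra hne
  have := Finset.disjoint_left.mp (h.2 m hm m' hm' hne) (hg m hm)
  rw [hmm'] at this
  exact this (hg m' hm')

/-- A maximal intersecting family contains a member of each complementary pair. -/
lemma mem_or_compl {n : ℕ} (hn : Even n) {F : Finset (Finset (Fin n))} (hF : IsMaxIntersecting F)
    {A : Finset (Fin n)} (hA : A.card = n / 2) : A ∈ F ∨ Aᶜ ∈ F := by
  by_contra hcon
  push Not at hcon
  obtain ⟨h1, h2⟩ := hcon
  have hAc : Aᶜ.card = n / 2 := by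
    rw [card_compl, Fintype.card_fin, hA]
    obtain ⟨k, hk⟩ := hn
    omega
  have e1 : ¬ ∀ B ∈ F, (B ∩ A).Nonempty := fun h => h1 (hF.2.2 A hA h)
  have e2 : ¬ ∀ B ∈ F, (B ∩ Aᶜ).Nonempty := fun h => h2 (hF.2.2 _ hAc h)
  push Not at e1 e2
  obtain ⟨B, hB, hBA⟩ := e1
  obtain ⟨C, hC, hCA⟩ := e2
  obtain ⟨x, hx⟩ := hF.2.1 B hB C hC
  rw [mem_inter] at hx
  by_cases hxA : x ∈ A
  · have : x ∈ B ∩ A := mem_inter.mpr ⟨hx.1, hxA⟩
    rw [hBA] at this
    simp at this
  · have : x ∈ C ∩ Aᶜ := mem_inter.mpr ⟨hx.2, mem_compl.mpr hxA⟩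
    rw [hCA] at this
    simp at this

/-- Of two systems with disjoint supports and at most `n / (2 r)` members each, at least one is
shattered. -/
lemma one_shattered {n r k : ℕ} (hn : Even n) (hr : 1 ≤ r) (hk : 2 * (r * k) ≤ n)
    {F : Finset (Finset (Fin n))} (hF : IsMaxIntersecting F)
    {M M' : Finset (Finset (Fin n))} (hM : IsSystem r M) (hM' : IsSystem r M')
    (hMk : M.card = k) (hMk' : M'.card = k)
    (hdis : Disjoint (M.biUnion id) (M'.biUnion id)) : Shattered F M ∨ Shattered F M' := by
  by_contra hcon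
  push Not at hcon
  obtain ⟨h1, h2⟩ := hcon
  unfold Shattered at h1 h2
  push Not at h1 h2
  obtain ⟨g, hg, h1⟩ := h1
  obtain ⟨g', hg', h2⟩ := h2
  set U := M.biUnion id with hU
  set U' := M'.biUnion id with hU'
  set c := M.image g with hc
  set c' := M'.image g' with hc'
  have hcU : c ⊆ U := image_subset hg
  have hcU' : c' ⊆ U' := image_subset hg'
  have hUc : U.card = r * k := by rw [hU, card_biUnion_system hM, hMk]
  have hUc' : U'.card = r * k := by rw [hU', card_biUnion_system hM', hMk']
  have hcc : c.card = k := by rw [hc, card_choice hM hg, hMk]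
  have hcc' : c'.card = k := by rw [hc', card_choice hM' hg', hMk']
  have hsub : (U \ c) ∪ c' ⊆ (c ∪ (U' \ c'))ᶜ := by
    intro x hx
    rw [mem_compl, mem_union, not_or]
    rcases mem_union.mp hx with h | h
    · rw [mem_sdiff] at h
      exact ⟨h.2, fun h' => Finset.disjoint_left.mp hdis h.1 (mem_sdiff.mp h').1⟩
    · exact ⟨fun h' => Finset.disjoint_left.mp hdis (hcU h') (hcU' h),
        fun h' => (mem_sdiff.mp h').2 h⟩
  have hrk : k ≤ r * k := Nat.le_mul_of_pos_left k hr
  have hs : ((U \ c) ∪ c').card ≤ n / 2 := by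
    refine (card_union_le _ _).trans ?_
    rw [card_sdiff_of_subset hcU, hUc, hcc, hcc']
    omega
  have ht : n / 2 ≤ ((c ∪ (U' \ c'))ᶜ).card := by
    rw [card_compl, Fintype.card_fin]
    have : (c ∪ (U' \ c')).card ≤ r * k := by
      refine (card_union_le _ _).trans ?_
      rw [card_sdiff_of_subset hcU', hUc', hcc, hcc']
      omega
    omega
  obtain ⟨A, hA1, hA2, hA3⟩ := exists_subsuperset_card_eq hsub hs ht
  have hAU' : A ∩ U' = c' := by
    ext x
    rw [mem_inter]
    constructor
    · rintro ⟨hxA, hxU⟩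
      by_contra hxc
      have := hA2 hxA
      rw [mem_compl, mem_union, not_or] at this
      exact this.2 (mem_sdiff.mpr ⟨hxU, hxc⟩)
    · intro hx
      exact ⟨hA1 (mem_union_right _ hx), hcU' hx⟩
  have hAU : Aᶜ ∩ U = c := by
    ext x
    rw [mem_inter, mem_compl]
    constructor
    · rintro ⟨hxA, hxU⟩
      by_contra hxc
      exact hxA (hA1 (mem_union_left _ (mem_sdiff.mpr ⟨hxU, hxc⟩)))
    · intro hx
      refine ⟨fun hxA => ?_, hcU hx⟩
      have := hA2 hxA
      rw [mem_compl, mem_union, not_or] at this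
      exact this.1 hx
  rcases mem_or_compl hn hF hA3 with h | h
  · exact h2 A h hAU'
  · exact h1 Aᶜ h hAU

/-- The block `{r i, …, r i + r - 1}`. -/
def block (n r i : ℕ) : Finset (Fin n) := univ.filter (fun x => x.val / r = i)

lemma card_block {n r i : ℕ} (hr : 1 ≤ r) (h : r * (i + 1) ≤ n) : (block n r i).card = r := by
  have : block n r i = (univ : Finset (Fin r)).map
      ⟨fun j : Fin r => (⟨r * i + j.val, by
        have := j.isLt
        have h2 : r * (i + 1) = r * i + r := by ring
        omega⟩ : Fin n), by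
        intro a b hab
        simp only [Fin.mk.injEq] at hab
        exact Fin.ext (by omega)⟩ := by
    ext x
    simp only [block, mem_filter, mem_univ, true_and, mem_map, Function.Embedding.coeFn_mk]
    constructor
    · intro hx
      have h1 := Nat.div_add_mod x.val r
      have h2 := Nat.mod_lt x.val hr
      refine ⟨⟨x.val % r, h2⟩, Fin.ext ?_⟩
      simp only
      rw [← hx]
      exact h1
    · rintro ⟨j, rfl⟩
      simp only
      rw [Nat.mul_add_div hr, Nat.div_eq_of_lt j.isLt, add_zero]
  rw [this, card_map, card_univ, Fintype.card_fin]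

lemma disjoint_block {n r i j : ℕ} (hij : i ≠ j) : Disjoint (block n r i) (block n r j) := by
  rw [Finset.disjoint_left]
  intro x hx hx'
  simp only [block, mem_filter, mem_univ, true_and] at hx hx'
  exact hij (hx.symm.trans hx')

lemma block_system {n r : ℕ} (hr : 1 ≤ r) (I : Finset ℕ) (hI : ∀ i ∈ I, r * (i + 1) ≤ n) :
    IsSystem r (I.image (block n r)) ∧ (I.image (block n r)).card = I.card := by
  refine ⟨⟨?_, ?_⟩, ?_⟩
  · intro m hm
    obtain ⟨i, hi, rfl⟩ := mem_image.mp hm
    exact card_block hr (hI i hi)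
  · intro m hm m' hm' hne
    obtain ⟨i, hi, rfl⟩ := mem_image.mp hm
    obtain ⟨j, hj, rfl⟩ := mem_image.mp hm'
    exact disjoint_block (fun h => hne (by rw [h]))
  · apply card_image_of_injOn
    intro i hi j hj hij
    by_contra hne
    have h1 : (block n r i).card = r := card_block hr (hI i hi)
    have h2 := disjoint_block (n := n) (r := r) hne
    have hij' : block n r i = block n r j := hij
    rw [hij'] at h1
    rw [hij', disjoint_self_iff_empty] at h2
    rw [h2, card_empty] at h1
    omega

/-- The family of all `n/2`-element sets avoiding a fixed point is maximal intersecting. -/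
lemma costar_max {n : ℕ} (hn : Even n) [NeZero n] :
    IsMaxIntersecting ((univ : Finset (Finset (Fin n))).filter
      (fun A => A.card = n / 2 ∧ (0 : Fin n) ∉ A)) := by
  refine ⟨?_, ?_, ?_⟩
  · intro A hA
    exact (mem_filter.mp hA).2.1
  · intro A hA B hB
    rw [mem_filter] at hA hB
    by_contra hcon
    rw [not_nonempty_iff_eq_empty] at hcon
    have h1 := card_union_add_card_inter A B
    rw [hcon, card_empty, hA.2.1, hB.2.1] at h1
    have h2 : A ∪ B ⊆ univ.erase 0 := by
      intro x hx
      rw [mem_erase]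
      refine ⟨?_, mem_univ _⟩
      rintro rfl
      rcases mem_union.mp hx with h | h
      · exact hA.2.2 h
      · exact hB.2.2 h
    have h3 := card_le_card h2
    rw [card_erase_of_mem (mem_univ _), card_univ, Fintype.card_fin] at h3
    have h4 : n ≠ 0 := NeZero.ne n
    obtain ⟨j, hj⟩ := hn
    omega
  · intro S hS hall
    rw [mem_filter]
    refine ⟨mem_univ _, hS, ?_⟩
    intro h0
    obtain ⟨x, hx⟩ := hall Sᶜ (by
      rw [mem_filter]
      refine ⟨mem_univ _, ?_, fun h => (mem_compl.mp h) h0⟩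
      rw [card_compl, Fintype.card_fin, hS]
      obtain ⟨k, hk⟩ := hn
      omega)
    rw [mem_inter, mem_compl] at hx
    exact hx.1 hx.2

/-- For even `n ≥ 4` and `r ≥ 3`: `⌊n / (2 r)⌋ ≤ k_r(n) ≤ ⌊(n - 2) / (2 (r - 1))⌋`. -/
theorem result : ∀ n r : ℕ, Even n → 4 ≤ n → 3 ≤ r →
    n / (2 * r) ≤ kr r n ∧ kr r n ≤ (n - 2) / (2 * (r - 1)) := by
  intro n r hn hn4 hr
  have hNZ : NeZero n := ⟨by omega⟩
  have hbound : ∀ k ∈ {k : ℕ | ∀ F : Finset (Finset (Fin n)), IsMaxIntersecting F →
      ∃ M : Finset (Finset (Fin n)), IsSystem r M ∧ M.card = k ∧ Shattered F M},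
      k ≤ (n - 2) / (2 * (r - 1)) := by
    intro k hk
    obtain ⟨M, hM, hMk, hsh⟩ := hk _ (costar_max hn)
    have hne : ∀ m ∈ M, m.Nonempty := by
      intro m hm
      rw [← card_pos, hM.1 m hm]
      omega
    have hg : ∀ m ∈ M, (fun m : Finset (Fin n) =>
        if (0 : Fin n) ∈ m then 0 else if h : m.Nonempty then h.choose else 0) m ∈ m := by
      intro m hm
      simp only [dif_pos (hne m hm)]
      split_ifs with h
      · exact h
      · exact (hne m hm).choose_spec
    obtain ⟨A, hA, hAU⟩ := hsh _ hg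
    rw [mem_filter] at hA
    have h0 : (0 : Fin n) ∉ M.biUnion id := by
      intro h0
      obtain ⟨m, hm, h0m⟩ := mem_biUnion.mp h0
      have : (0 : Fin n) ∈ A ∩ M.biUnion id := by
        rw [hAU, mem_image]
        exact ⟨m, hm, if_pos h0m⟩
      exact hA.2.2 (mem_inter.mp this).1
    have h1 := card_biUnion_system hM
    have h2 := card_choice hM hg
    rw [← hAU, hMk] at h2
    rw [hMk] at h1
    have h3 : (A ∪ M.biUnion id).card + (A ∩ M.biUnion id).card = A.card + (M.biUnion id).card :=
      card_union_add_card_inter _ _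
    have h4 : (A ∪ M.biUnion id).card ≤ n - 1 := by
      have h5 : A ∪ M.biUnion id ⊆ univ.erase 0 := by
        intro x hx
        rw [mem_erase]
        refine ⟨?_, mem_univ _⟩
        rintro rfl
        rcases mem_union.mp hx with h | h
        · exact hA.2.2 h
        · exact h0 h
      have h6 := card_le_card h5
      rwa [card_erase_of_mem (mem_univ _), card_univ, Fintype.card_fin] at h6
    rw [h1, h2, hA.2.1] at h3
    rw [Nat.le_div_iff_mul_le (by omega)]
    obtain ⟨s, rfl⟩ : ∃ s, r = s + 1 := ⟨r - 1, by omega⟩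
    simp only [Nat.add_sub_cancel]
    have h5 : (s + 1) * k = s * k + k := by ring
    have h6 : k * (2 * s) = 2 * (s * k) := by ring
    obtain ⟨j, hj⟩ := hn
    omega
  have hbdd : BddAbove {k : ℕ | ∀ F : Finset (Finset (Fin n)), IsMaxIntersecting F →
      ∃ M : Finset (Finset (Fin n)), IsSystem r M ∧ M.card = k ∧ Shattered F M} :=
    ⟨_, hbound⟩
  have hmem : n / (2 * r) ∈ {k : ℕ | ∀ F : Finset (Finset (Fin n)), IsMaxIntersecting F →
      ∃ M : Finset (Finset (Fin n)), IsSystem r M ∧ M.card = k ∧ Shattered F M} := by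
    intro F hF
    set k := n / (2 * r) with hk
    have hkn : 2 * r * k ≤ n := Nat.mul_div_le n (2 * r)
    have hk2 : r * (2 * k) ≤ n := by
      calc r * (2 * k) = 2 * r * k := by ring
        _ ≤ n := hkn
    have hI1 : ∀ i ∈ range k, r * (i + 1) ≤ n := by
      intro i hi
      rw [mem_range] at hi
      exact (Nat.mul_le_mul_left r (by omega)).trans hk2
    have hI2 : ∀ i ∈ Ico k (2 * k), r * (i + 1) ≤ n := by
      intro i hi
      rw [mem_Ico] at hi
      exact (Nat.mul_le_mul_left r (by omega)).trans hk2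
    obtain ⟨hM, hMc⟩ := block_system (n := n) (by omega) _ hI1
    obtain ⟨hM', hMc'⟩ := block_system (n := n) (by omega) _ hI2
    have hdis : Disjoint (((range k).image (block n r)).biUnion id)
        (((Ico k (2 * k)).image (block n r)).biUnion id) := by
      rw [Finset.disjoint_left]
      intro x hx hx'
      obtain ⟨m, hm, hxm⟩ := mem_biUnion.mp hx
      obtain ⟨m', hm', hxm'⟩ := mem_biUnion.mp hx'
      obtain ⟨i, hi, rfl⟩ := mem_image.mp hm
      obtain ⟨j, hj, rfl⟩ := mem_image.mp hm'
      simp only [id, block, mem_filter, mem_univ, true_and] at hxm hxm'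
      rw [mem_range] at hi
      rw [mem_Ico] at hj
      omega
    have hc1 : ((range k).image (block n r)).card = k := by rw [hMc, card_range]
    have hc2 : ((Ico k (2 * k)).image (block n r)).card = k := by
      rw [hMc', Nat.card_Ico]
      omega
    rcases one_shattered hn (by omega) (by
        calc 2 * (r * k) = 2 * r * k := by ring
          _ ≤ n := hkn) hF hM hM' hc1 hc2 hdis with h | h
    · exact ⟨_, hM, hc1, h⟩
    · exact ⟨_, hM', hc2, h⟩
  exact ⟨le_csSup hbdd hmem, csSup_le ⟨_, hmem⟩ hbound⟩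

end Pool.Agent.Results.MP_5e3dfa_co.OrderOfMagnitude
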